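import Pool.Agent.Q226.DK.Defs
import Pool.Agent.Q226.DK.Sim

set_option autoImplicit false

/-!
# The delayed k-server problem is no harder than the ordinary one

All definitions are in `Pool/Agent/Q226/DK/Defs.lean`: `comp x0` is the competitiveness of the
ordinary `k`-server problem with initial positions `x0`, and `dcomp v x0 f0` is the competitiveness
of version `v` (`a` or `b`) of the delayed problem with initial positions `x0` and initially frozen
server `f0`.

The proof: the last two requests `p`, `q` are fed alternately to the given algorithm for the
ordinary problem (for a repeated request in version (b), the second point is replaced by a point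
very close to it) until its servers almost cover both points; then the servers of the delayed
problem move to this configuration, leaving the frozen server in its place, which costs no more up
to a summable error.
-/

namespace Pool.Agent.Results.MP_836b05_lc.NoHarderThanOrdinary

open Pool.Agent.Q226.DK

universe u

/-- **Version (a) of the delayed `k`-server problem is at most as hard as the ordinary `k`-server
problem on every metric space, and version (b) on every metric space without isolated points**, for
every `k ≥ 2` and all initial states. -/
theorem result : ∀ k : ℕ, 2 ≤ k → ∀ (M : Type u) [MetricSpace M] (v : Version),
    (v = Version.b → ∀ (p : M) (ε : ℝ), 0 < ε → ∃ q, q ≠ p ∧ dist q p < ε) →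
      ∀ (x0 : Fin k → M) (f0 : Fin k), dcomp v x0 f0 ≤ comp x0 :=
  fun _ hk _ _ v hv x0 f0 => dcomp_le_comp hk x0 f0 v hv

end Pool.Agent.Results.MP_836b05_lc.NoHarderThanOrdinary
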