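import Pool.Agent.Q226.DK.Defs
import Pool.Agent.Q226.DK.Sim
import Pool.Agent.Q226.DK.Uniform

set_option autoImplicit false

/-!
# Version (b) of the delayed k-server problem on spaces with k points

All definitions are in `Pool/Agent/Q226/DK/Defs.lean`: `comp x0` is the competitiveness of the
ordinary `k`-server problem with initial positions `x0`, and `dcomp v x0 f0` is the competitiveness
of version `v` (`a` or `b`) of the delayed problem with initial positions `x0` and initially frozen
server `f0`.

On a space with exactly `k` points the ordinary problem is trivial, but version (b) contains the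
`(k-1)`-server problem on `k` pages: the second copy of a point `z`, requested by repeating the
request `z`, and the `k - 1` points different from `z`. Hence the inequality of Q1, as worded, fails
for every `k`.
-/

namespace Pool.Agent.Results.MP_836b05_lc.SpacesWithKPoints

open Pool.Agent.Q226.DK

/-- For every `k ≥ 2` there is a metric space with exactly `k` points and all distances `1` such
that, for all initial states, the competitiveness of the ordinary `k`-server problem is at most `0`
and that of version (b) of the delayed problem is at least `k - 1`. -/
theorem result : ∀ k : ℕ, 2 ≤ k → ∃ (M : Type) (_ : MetricSpace M), Nat.card M = k ∧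
    (∀ x y : M, x ≠ y → dist x y = 1) ∧
    ∀ (x0 : Fin k → M) (f0 : Fin k), comp x0 ≤ 0 ∧
      (((k : ℝ) - 1 : ℝ) : EReal) ≤ dcomp Version.b x0 f0 :=
  fun k hk => ⟨Uni k, inferInstance, by
    show Nat.card (Fin k) = k
    simp, fun _ _ h => uni_dist_ne h, fun x0 f0 => ⟨uni_comp x0, uni_dcomp hk x0 f0⟩⟩

end Pool.Agent.Results.MP_836b05_lc.SpacesWithKPoints
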